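import Pool.Agent.Lib.MP_25e40f_pr.Defs

/-! MP_25e40f_pr: the coefficients `Z_n(F, A; u)` of the expansion, the series `g`, limits of the events `Thru` in infinite volume -/

set_option autoImplicit false

noncomputable section

open Finset
open scoped Classical

namespace IPC

variable {V : Type} [DecidableEq V]

/-- one step of the expansion: `∑_{x ~ x2} ∑_S cc(F, A; (x, x2), S) T({x2}, S)` -/
def stepE (G : PG V) (p : ℝ) (T : Finset V → Set V → ENNReal) (F : Finset V) (A : Set V) : ENNReal :=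
  ∑' x, ∑' x2, if x2 ∈ G.nb x then
    ∑' S : Finset V, ENNReal.ofReal (G.cc p F A (x, x2) S) * T {x2} (S : Set V) else 0

/-- `Z_n(F, A; u)` -/
def ZZ (G : PG V) (p : ℝ) : ℕ → Finset V → Set V → V → ENNReal
  | 0, F, A, u => ∑' S : Finset V, ENNReal.ofReal (G.ec p F A u S)
  | n + 1, F, A, u => ∑' x, ∑' x2, if x2 ∈ G.nb x then
      ∑' S : Finset V, ENNReal.ofReal (G.cc p F A (x, x2) S) * ZZ G p n {x2} (S : Set V) u else 0

/-- `g_F(u) = ∑_n (-1)^n Z_n(F, univ; u)` -/
def gF (G : PG V) (p : ℝ) (F : Finset V) (u : V) : ℝ :=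
  ∑' n : ℕ, (-1) ^ n * (ZZ G p n F Set.univ u).toReal

/-- `g(x, u) = g_{x}(u)` -/
def gg (G : PG V) (p : ℝ) (x u : V) : ℝ := gF G p {x} u

namespace PG

variable (G : PG V)

/-- infinite volume probability that all of `F` is connected to `y` -/
def HH (p : ℝ) (F : Finset V) (y : V) : ℝ := ⨆ r, Pr p (G.ein (G.Lam r)) (fun ω => AllConn ω F y)

/-- infinite volume probability that all of `F` is connected to `y` and some `f ∈ F` off `A` -/
def HO (p : ℝ) (F : Finset V) (A : Set V) (y : V) : ℝ :=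
  ⨆ r, Pr p (G.ein (G.Lam r)) (fun ω => AllConn ω F y ∧ ∃ f ∈ F, ConnOff ω A f y)

/-- infinite volume probability of `Thru A F y` -/
def TE (p : ℝ) (F : Finset V) (A : Set V) (y : V) : ENNReal := ENNReal.ofReal (G.HH p F y - G.HO p F A y)

/-- infinite volume probability of a connection off `A` -/
def TO (p : ℝ) (A : Set V) (w y : V) : ENNReal :=
  ENNReal.ofReal (⨆ r, Pr p (G.ein (G.Lam r)) (fun ω => ConnOff ω A w y))

/-- `δ_{uy} + (P τ)(u, y)` -/
def VE (p : ℝ) (u y : V) : ENNReal :=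
  (if u = y then 1 else 0) + ∑ v ∈ G.nb u, ENNReal.ofReal (p * G.tau p v y)

end PG

end IPC
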