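import Pool.Agent.Lib.MP_25e40f_pr.ZDef
import Pool.Agent.Lib.MP_25e40f_pr.C.Kdef

/-!
# MP_25e40f_pr: graph level definitions shared by the streams
-/

set_option autoImplicit false

noncomputable section

open Finset
open scoped Classical

namespace IPC

/-- sup norm on `ℤⁿ` -/
def nrm {n : ℕ} (x : Fin n → ℤ) : ℕ := Finset.univ.sup fun i => (x i).natAbs

/-- the box of radius `r` around `x` -/
def box {n : ℕ} (x : Fin n → ℤ) (r : ℕ) : Finset (Fin n → ℤ) :=
  Fintype.piFinset fun i => Finset.Icc (x i - r) (x i + r)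

variable {V : Type} [DecidableEq V]

/-- product of kernels -/
def kmul (f g : V → V → ENNReal) (x y : V) : ENNReal := ∑' z, f x z * g z y

/-- sup over all entries of a kernel -/
def ksup (f : V → V → ENNReal) : ENNReal := ⨆ x, ⨆ y, f x y

namespace PG

variable (G : PG V)

/-- degree bound -/
def DegLe (D : ℕ) : Prop := ∀ x, (G.nb x).card ≤ D

/-- automorphisms -/
def Aut (φ : V ≃ V) : Prop := ∀ x, G.nb (φ x) = (G.nb x).image φ

/-- finitely many orbits -/
def QT : Prop := ∃ R : Finset V, ∀ x, ∃ φ : V ≃ V, G.Aut φ ∧ φ x ∈ R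

/-- the two point function as a kernel with values in `[0, ∞]` -/
def tK (p : ℝ) (x y : V) : ENNReal := ENNReal.ofReal (G.tau p x y)

/-- the kernel `p A` -/
def pK (p : ℝ) (x y : V) : ENNReal := if y ∈ G.nb x then ENNReal.ofReal p else 0

end PG

end IPC
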