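import Pool.Agent.Lib.MP_25e40f_pr.IfT
import Pool.Agent.Lib.MP_25e40f_pr.S.LowB
import Pool.Agent.Lib.MP_25e40f_pr.U.Fin

/-!
# INTERFACES S and U (leader helper36): sharpness and uniqueness
-/

set_option autoImplicit false

set_option linter.unusedVariables false

noncomputable section

open Finset Filter

namespace IPC

private theorem IfU_exp {q : ℝ} (hq0 : 0 ≤ q) (hq1 : q < 1) (R : ℕ) :
    ∃ C c : ℝ, 0 < C ∧ 0 < c ∧ ∀ (b : ℝ) (N : ℕ), b ≤ 1 → (∀ k : ℕ, k * R < N → b ≤ q ^ k) →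
      b ≤ C * Real.exp (-c * N) := by
  have hr0 : (0 : ℝ) < max q (1 / 2) := lt_of_lt_of_le (by norm_num) (le_max_right _ _)
  have hr1 : max q (1 / 2) < 1 := max_lt hq1 (by norm_num)
  set r : ℝ := max q (1 / 2) with hr
  have hqr : q ≤ r := le_max_left _ _
  have hR : (0 : ℝ) < (R : ℝ) + 1 := by positivity
  have hlog : Real.log r < 0 := Real.log_neg hr0 hr1
  refine ⟨1 / r, -Real.log r / ((R : ℝ) + 1), by positivity, div_pos (by linarith) hR, ?_⟩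
  intro b N hb h
  have key : ∀ k : ℕ, (N : ℝ) / ((R : ℝ) + 1) ≤ (k : ℝ) + 1 →
      r ^ k ≤ 1 / r * Real.exp (-(-Real.log r / ((R : ℝ) + 1)) * N) := by
    intro k hk
    have h1 : r ^ k = Real.exp ((k : ℝ) * Real.log r) := by
      rw [← Real.log_pow, Real.exp_log (pow_pos hr0 k)]
    have h2 : 1 / r = Real.exp (-Real.log r) := by
      rw [Real.exp_neg, Real.exp_log hr0, one_div]
    rw [h1, h2, ← Real.exp_add, Real.exp_le_exp]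
    have h3 : (N : ℝ) / ((R : ℝ) + 1) * Real.log r ≥ ((k : ℝ) + 1) * Real.log r := by
      exact mul_le_mul_of_nonpos_right hk hlog.le
    have h4 : -(-Real.log r / ((R : ℝ) + 1)) * (N : ℝ) = (N : ℝ) / ((R : ℝ) + 1) * Real.log r := by
      ring
    rw [h4]
    linarith
  rcases Nat.eq_zero_or_pos N with h0 | hpos
  · subst h0
    have h1 := key 0 (by simp)
    rw [pow_zero] at h1
    exact hb.trans h1
  · set k : ℕ := (N - 1) / (R + 1) with hk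
    have h1 : k * (R + 1) ≤ N - 1 := Nat.div_mul_le_self _ _
    have h2 : N - 1 < (k + 1) * (R + 1) := by
      have h5 := Nat.lt_div_mul_add (a := N - 1) (b := R + 1) (Nat.succ_pos R)
      rw [← hk] at h5
      nlinarith
    have h3 : k * R < N := by
      have h8 : k * R ≤ k * (R + 1) := Nat.mul_le_mul_left k (Nat.le_succ R)
      omega
    have h4 : (N : ℝ) / ((R : ℝ) + 1) ≤ (k : ℝ) + 1 := by
      rw [div_le_iff₀ hR]
      have h6 : N ≤ (k + 1) * (R + 1) := by omega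
      have h7 : ((N : ℕ) : ℝ) ≤ (((k + 1) * (R + 1) : ℕ) : ℝ) := by exact_mod_cast h6
      push_cast at h7
      exact h7
    exact ((h k h3).trans (pow_le_pow_left₀ hq0 hqr k)).trans (key k h4)

/-- S1, S3 for `ℤⁿ × H` -/
theorem decay_W (n : ℕ) (hn : 1 ≤ n) (ι : Type) [Fintype ι] [DecidableEq ι] (H : SimpleGraph ι) (p : ℝ)
    (hp0 : 0 ≤ p) (hp : p < (Wg n ι H).pc) (hp2 : p ≤ 1 / 2) :
    ∃ C c : ℝ, 0 < C ∧ 0 < c ∧ ∀ x y : (Fin n → ℤ) × ι,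
      (Wg n ι H).tau p x y ≤ C * Real.exp (-c * nrm (x.1 - y.1)) := by
  obtain ⟨q, hq0, hq1, R, h⟩ := S.W_decay H hp0 hp2 hp
  obtain ⟨C, c, hC, hc, h1⟩ := IfU_exp hq0 hq1 R
  refine ⟨C, c, hC, hc, fun x y => ?_⟩
  refine h1 _ _ (T.tau_le_one _ hp0 (by linarith) x y) fun k hk => ?_
  refine h k x y ?_
  rw [S.nrm_sub_comm]
  exact hk

/-- S1, S3 for `ℤᵈ` -/
theorem decay_Z (d : ℕ) (hd : 1 ≤ d) (p : ℝ) (hp0 : 0 ≤ p) (hp : p < (Zg d).pc) (hp2 : p ≤ 1 / 2) :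
    ∃ C c : ℝ, 0 < C ∧ 0 < c ∧ ∀ x y : Fin d → ℤ,
      (Zg d).tau p x y ≤ C * Real.exp (-c * nrm (x - y)) := by
  obtain ⟨q, hq0, hq1, R, h⟩ := S.Z_decay hp0 hp2 hp
  obtain ⟨C, c, hC, hc, h1⟩ := IfU_exp hq0 hq1 R
  refine ⟨C, c, hC, hc, fun x y => ?_⟩
  refine h1 _ _ (T.tau_le_one _ hp0 (by linarith) x y) fun k hk => ?_
  refine h k x y ?_
  rw [S.nrm_sub_comm]
  exact hk

/-- S3: at the critical point of `ℤᵈ` -/
theorem phi_ge_one (d : ℕ) (hd : 1 ≤ d) (hpc : (Zg d).pc < 1 / 2) (S : Finset (Fin d → ℤ))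
    (hS : 0 ∈ S) : 1 ≤ ∑ y ∈ S, ∑ _z ∈ (Zg d).nb y \ S, (Zg d).pc * (Zg d).tauD (Zg d).pc S 0 y := by
  have h := IPC.S.phi_pc hpc S hS
  unfold IPC.S.phi at h
  refine h.trans (le_of_eq ?_)
  refine Finset.sum_congr rfl fun y _ => ?_
  rw [Finset.sum_const, Finset.sum_const, mul_comm]

/-- S3: the susceptibility diverges -/
theorem chi_top (d : ℕ) (hd : 1 ≤ d) (hpc : (Zg d).pc < 1 / 2) :
    ∑' y, (Zg d).tK (Zg d).pc 0 y = ⊤ := by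
  refine ENNReal.eq_top_of_forall_nnreal_le fun r => ?_
  have hp0 := T.pc_nonneg (Zg d)
  have hp1 := T.pc_le_one (Zg d)
  obtain ⟨s, hs⟩ := S.chi_large hp0 hp1 (fun s0 hs0 => S.phi_pc hpc s0 hs0) (r : ℝ)
  refine le_trans ?_ (ENNReal.sum_le_tsum s)
  unfold PG.tK
  rw [← ENNReal.ofReal_sum_of_nonneg fun y _ => T.tau_nonneg (Zg d) hp0 hp1 0 y]
  rw [← ENNReal.ofReal_coe_nnreal]
  exact ENNReal.ofReal_le_ofReal hs

/-- the susceptibility is large near `pc` -/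
theorem chi_left (d : ℕ) (hd : 1 ≤ d) (hpc : (Zg d).pc < 1 / 2) (M : ℝ) :
    ∃ p1 : ℝ, 0 < p1 ∧ p1 < (Zg d).pc ∧ ∀ p : ℝ, p1 ≤ p → p ≤ 1 →
      ∃ s : Finset (Fin d → ℤ), M ≤ ∑ y ∈ s, (Zg d).tau p 0 y :=
  S.chi_large_left hd hpc M

/-- lower bound of the critical value -/
theorem pc_lower (d : ℕ) (hd : 1 ≤ d) : 1 / (4 * (d : ℝ)) ≤ (Zg d).pc := S.pc_pos hd

/-- S4: lower bound inside a box -/
theorem tau_box_lower (d : ℕ) (hd : 1 ≤ d) (hpc : (Zg d).pc < 1 / 2) (hpc0 : 0 < (Zg d).pc) :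
    ∃ c : ℝ, 0 < c ∧ ∃ β : ℕ, ∀ (R : ℕ) (x y : Fin d → ℤ), 1 ≤ R → nrm (x - y) ≤ R →
      c * ((R : ℝ) ^ β)⁻¹ ≤ (Zg d).tauD (Zg d).pc (box x (4 * R)) x y := by
  obtain ⟨c, hc, β, h⟩ := S.low hd hpc0 (T.pc_le_one (Zg d)) (fun s0 hs0 => S.phi_pc hpc s0 hs0)
  refine ⟨c, hc, β, fun R x y hR hxy => ?_⟩
  have h1 : S.nrm (y - x) ≤ R := by
    rw [S.nrm_sub_comm]
    exact hxy
  refine le_trans (le_of_eq ?_) (h R hR x y h1 (box x (4 * R)) fun z hz => ?_)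
  · rw [div_eq_mul_inv]
  · unfold box
    rw [Fintype.mem_piFinset]
    intro i
    have h2 := (S.natAbs_le_nrm (z - x) i).trans hz
    rw [Pi.sub_apply] at h2
    rw [Finset.mem_Icc]
    push_cast
    omega

/-- U: uniqueness -/
theorem uniqueness (d : ℕ) (hd : 1 ≤ d) (p : ℝ) (hp0 : 0 < p) (hp1 : p < 1)
    (h : ¬ (Zg d).NoPerc p) : ∃ c : ℝ, 0 < c ∧ ∀ y, c ≤ (Zg d).tau p 0 y := by
  obtain ⟨c, hc, h1⟩ := U.uniq hp0 hp1 h
  exact ⟨c, hc, fun y => h1 0 y⟩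

/-- U: bounded square sums exclude percolation -/
theorem noPerc_of_sum_sq (d : ℕ) (hd : 1 ≤ d) (p : ℝ) (hp0 : 0 < p) (hp1 : p < 1) (x : Fin d → ℤ)
    (C : ℝ) (h : ∀ s : Finset (Fin d → ℤ), ∑ y ∈ s, (Zg d).tau p x y ^ 2 ≤ C) :
    (Zg d).NoPerc p := U.noPerc_of_sum_sq hd hp0 hp1 x C h

end IPC
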