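import Mathlib

/-!
# MP_25e40f_pr: percolation on finite edge sets, graphs with an exhaustion, the objects of the expansion
-/

set_option autoImplicit false

noncomputable section

open Finset
open scoped Classical

namespace IPC

/-- indicator of a proposition -/
def ind (P : Prop) : ℝ := if P then 1 else 0

variable {ε V : Type} [DecidableEq ε] [DecidableEq V]

/-- expectation of `f` over the percolation configurations `ω ⊆ E` (edges open with probability `p`) -/
def EE (p : ℝ) (E : Finset ε) (f : Finset ε → ℝ) : ℝ :=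
  ∑ ω ∈ E.powerset, p ^ ω.card * (1 - p) ^ (E \ ω).card * f ω

/-- probability -/
def Pr (p : ℝ) (E : Finset ε) (A : Finset ε → Prop) : ℝ := EE p E (fun ω => ind (A ω))

/-- increasing events -/
def Inc (A : Finset ε → Prop) : Prop := ∀ ω ω', ω ⊆ ω' → A ω → A ω'

/-- disjoint occurrence of a list of (increasing) events -/
def Occ : List (Finset ε → Prop) → Finset ε → Prop
  | [], _ => True
  | A :: L, ω => ∃ ω₁, ω₁ ⊆ ω ∧ A ω₁ ∧ Occ L (ω \ ω₁)

/-- connection by open edges -/
def Conn (ω : Finset (Sym2 V)) (x y : V) : Prop :=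
  Relation.ReflTransGen (fun a b => s(a, b) ∈ ω) x y

/-- trails: the edge set `ω` is the edge set of a trail from `x` to `y` -/
inductive Trail : Finset (Sym2 V) → V → V → Prop
  | nil (x : V) : Trail ∅ x x
  | cons (x y z : V) (ω : Finset (Sym2 V)) (h : s(x, y) ∉ ω) (t : Trail ω y z) :
      Trail (insert s(x, y) ω) x z

/-- the event that `a` and `b` are connected inside the edge set `E` -/
def Ln (E : Finset (Sym2 V)) (a b : V) : Finset (Sym2 V) → Prop := fun ω => Conn (ω ∩ E) a b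

/-- edges of `ω` without endpoint in `A` -/
def off (ω : Finset (Sym2 V)) (A : Set V) : Finset (Sym2 V) :=
  ω.filter (fun e => ∀ a ∈ e, a ∉ A)

/-- connection outside of `A` -/
def ConnOff (ω : Finset (Sym2 V)) (A : Set V) (x y : V) : Prop := x ∉ A ∧ Conn (off ω A) x y

/-- the cluster of a finite set of vertices -/
def Cl (ω : Finset (Sym2 V)) (F : Finset V) : Set V := {y | ∃ f ∈ F, Conn ω f y}

/-- all vertices of `F` are connected to `y` -/
def AllConn (ω : Finset (Sym2 V)) (F : Finset V) (y : V) : Prop := ∀ f ∈ F, Conn ω f y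

/-- all vertices of `F` are connected to `y`, and only through `A` -/
def Thru (ω : Finset (Sym2 V)) (A : Set V) (F : Finset V) (y : V) : Prop :=
  AllConn ω F y ∧ ∀ f ∈ F, ¬ ConnOff ω A f y

/-- the event `E'(F, u; A)` of the lace expansion: `F` is connected to `u` only through `A`, and there is
no pivotal edge `{y, y'}` for this connection such that already `F` is connected to `y` only through `A` -/
def EP (ω : Finset (Sym2 V)) (A : Set V) (F : Finset V) (u : V) : Prop :=
  Thru ω A F u ∧ ∀ y y', s(y, y') ∈ ω → y ∈ Cl (ω.erase s(y, y')) F → u ∉ Cl (ω.erase s(y, y')) F →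
    ¬ Thru (ω.erase s(y, y')) A F y

/-- oriented edges of a finite edge set -/
def darts (E : Finset (Sym2 V)) : Finset (V × V) :=
  (E.biUnion fun e => e.toFinset ×ˢ e.toFinset).filter fun q => s(q.1, q.2) ∈ E

/-- locally finite graphs with an exhaustion by finite sets -/
structure PG (V : Type) [DecidableEq V] where
  nb : V → Finset V
  symm : ∀ x y, y ∈ nb x → x ∈ nb y
  irr : ∀ x, x ∉ nb x
  Lam : ℕ → Finset V
  mono : ∀ r, Lam r ⊆ Lam (r + 1)
  cover : ∀ x, ∃ r, x ∈ Lam r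
  step : ∀ r, ∀ x ∈ Lam r, nb x ⊆ Lam (r + 1)

namespace PG

variable (G : PG V)

/-- edges inside a finite set of vertices -/
def ein (D : Finset V) : Finset (Sym2 V) :=
  D.biUnion fun a => (G.nb a ∩ D).image fun b => s(a, b)

/-- edges touching a finite set of vertices -/
def touch (S : Finset V) : Finset (Sym2 V) :=
  S.biUnion fun a => (G.nb a).image fun b => s(a, b)

/-- two point function in a finite domain -/
def tauD (p : ℝ) (D : Finset V) (x y : V) : ℝ := Pr p (G.ein D) (fun ω => Conn ω x y)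

/-- two point function -/
def tau (p : ℝ) (x y : V) : ℝ := ⨆ r, G.tauD p (G.Lam r) x y

/-- probability that `x` is connected to the boundary of the `r`-th set of the exhaustion -/
def arm (p : ℝ) (x : V) (r : ℕ) : ℝ :=
  Pr p (G.ein (G.Lam (r + 1))) (fun ω => ∃ y ∈ G.Lam (r + 1) \ G.Lam r, Conn ω x y)

/-- no percolation at `p` -/
def NoPerc (p : ℝ) : Prop := ∀ x, Filter.Tendsto (G.arm p x) Filter.atTop (nhds 0)

/-- the critical value -/
def pc : ℝ := sSup {p : ℝ | 0 ≤ p ∧ p ≤ 1 ∧ G.NoPerc p}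

/-- local coefficients: `p P(E'(F, u; A), cluster of F without the edge {u, u'} is S)` -/
def cc (p : ℝ) (F : Finset V) (A : Set V) (b : V × V) (S : Finset V) : ℝ :=
  p * Pr p (G.touch S) (fun ω => EP ω A F b.1 ∧ Cl (ω.erase s(b.1, b.2)) F = (S : Set V))

/-- `P(E'(F, u; A), C(F) = S)` -/
def ec (p : ℝ) (F : Finset V) (A : Set V) (u : V) (S : Finset V) : ℝ :=
  Pr p (G.touch S) (fun ω => EP ω A F u ∧ Cl ω F = (S : Set V))

end PG

/-- neighbours in `ℤⁿ` -/
def nbZ (d : ℕ) (x : Fin d → ℤ) : Finset (Fin d → ℤ) :=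
  (Finset.univ : Finset (Fin d × Bool)).image fun q =>
      Function.update x q.1 (x q.1 + if q.2 then 1 else -1)

theorem mem_nbZ (d : ℕ) (x y : Fin d → ℤ) : y ∈ nbZ d x ↔
    ∃ i : Fin d, ∃ s : ℤ, (s = 1 ∨ s = -1) ∧ y = Function.update x i (x i + s) := by
  unfold nbZ
  rw [Finset.mem_image]
  constructor
  · rintro ⟨⟨i, b⟩, _, rfl⟩
    cases b
    · exact ⟨i, -1, Or.inr rfl, by simp⟩
    · exact ⟨i, 1, Or.inl rfl, by simp⟩
  · rintro ⟨i, s, hs, rfl⟩
    rcases hs with rfl | rfl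
    · exact ⟨(i, true), Finset.mem_univ _, by simp⟩
    · exact ⟨(i, false), Finset.mem_univ _, by simp⟩

theorem nbZ_symm (d : ℕ) (x y : Fin d → ℤ) (h : y ∈ nbZ d x) : x ∈ nbZ d y := by
  rw [mem_nbZ] at h ⊢
  obtain ⟨i, s, hs, rfl⟩ := h
  refine ⟨i, -s, ?_, ?_⟩
  · rcases hs with rfl | rfl
    · exact Or.inr rfl
    · exact Or.inl (neg_neg 1)
  · simp

theorem nbZ_irr (d : ℕ) (x : Fin d → ℤ) : x ∉ nbZ d x := by
  rw [mem_nbZ]
  rintro ⟨i, s, hs, h⟩
  have h1 := congrFun h i
  rw [Function.update_self] at h1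
  rcases hs with rfl | rfl <;> omega

theorem nbZ_step (d : ℕ) (r : ℕ) (x : Fin d → ℤ)
    (hx : x ∈ Fintype.piFinset fun _ : Fin d => Finset.Icc (-(r : ℤ)) r) :
    nbZ d x ⊆ Fintype.piFinset fun _ : Fin d => Finset.Icc (-((r + 1 : ℕ) : ℤ)) ((r + 1 : ℕ) : ℤ) := by
  intro y hy
  rw [mem_nbZ] at hy
  obtain ⟨i, s, hs, rfl⟩ := hy
  rw [Fintype.mem_piFinset] at hx ⊢
  intro j
  have h1 := hx j
  rw [Finset.mem_Icc] at h1 ⊢
  push_cast
  by_cases hj : j = i
  · subst hj
    rw [Function.update_self]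
    rcases hs with rfl | rfl <;> constructor <;> linarith [h1.1, h1.2]
  · rw [Function.update_of_ne hj]
    constructor <;> linarith [h1.1, h1.2]

theorem box_mono (d : ℕ) (r : ℕ) : (Fintype.piFinset fun _ : Fin d => Finset.Icc (-(r : ℤ)) r) ⊆
    Fintype.piFinset fun _ : Fin d => Finset.Icc (-((r + 1 : ℕ) : ℤ)) ((r + 1 : ℕ) : ℤ) := by
  intro x hx
  rw [Fintype.mem_piFinset] at hx ⊢
  intro j
  have h1 := hx j
  rw [Finset.mem_Icc] at h1 ⊢
  push_cast
  constructor <;> linarith [h1.1, h1.2]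

theorem box_cover (d : ℕ) (x : Fin d → ℤ) : ∃ r : ℕ,
    x ∈ Fintype.piFinset fun _ : Fin d => Finset.Icc (-(r : ℤ)) r := by
  refine ⟨∑ i, (x i).natAbs, ?_⟩
  rw [Fintype.mem_piFinset]
  intro j
  have h1 : (x j).natAbs ≤ ∑ i, (x i).natAbs :=
    Finset.single_le_sum (f := fun i => (x i).natAbs) (fun _ _ => Nat.zero_le _) (Finset.mem_univ j)
  rw [Finset.mem_Icc]
  omega

/-- the graph `ℤᵈ` -/
def Zg (d : ℕ) : PG (Fin d → ℤ) where
  nb := nbZ d
  symm := nbZ_symm d
  irr := nbZ_irr d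
  Lam r := Fintype.piFinset fun _ => Finset.Icc (-(r : ℤ)) r
  mono := box_mono d
  cover := box_cover d
  step := nbZ_step d

/-- the graph `ℤⁿ × H`, `H` a finite graph -/
def Wg (n : ℕ) (ι : Type) [Fintype ι] [DecidableEq ι] (H : SimpleGraph ι) : PG ((Fin n → ℤ) × ι) where
  nb x := (nbZ n x.1).image (fun y => (y, x.2)) ∪
    (Finset.univ.filter fun j => H.Adj x.2 j).image fun j => (x.1, j)
  symm := by
    rintro ⟨x, i⟩ ⟨y, j⟩ h
    simp only [Finset.mem_union, Finset.mem_image, Finset.mem_filter, Finset.mem_univ, true_and,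
      Prod.mk.injEq] at h ⊢
    rcases h with ⟨z, hz, rfl, rfl⟩ | ⟨k, hk, rfl, rfl⟩
    · exact Or.inl ⟨x, nbZ_symm n x z hz, rfl, rfl⟩
    · exact Or.inr ⟨i, hk.symm, rfl, rfl⟩
  irr := by
    rintro ⟨x, i⟩ h
    simp only [Finset.mem_union, Finset.mem_image, Finset.mem_filter, Finset.mem_univ, true_and,
      Prod.mk.injEq] at h
    rcases h with ⟨z, hz, rfl, _⟩ | ⟨k, hk, _, rfl⟩
    · exact nbZ_irr n _ hz
    · exact H.loopless.irrefl _ hk
  Lam r := (Fintype.piFinset fun _ => Finset.Icc (-(r : ℤ)) r) ×ˢ Finset.univ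
  mono r := Finset.product_subset_product_left (box_mono n r)
  cover := by
    rintro ⟨x, i⟩
    obtain ⟨r, hr⟩ := box_cover n x
    exact ⟨r, Finset.mem_product.2 ⟨hr, Finset.mem_univ _⟩⟩
  step := by
    rintro r ⟨x, i⟩ hx ⟨y, j⟩ hy
    rw [Finset.mem_product] at hx ⊢
    refine ⟨?_, Finset.mem_univ _⟩
    simp only [Finset.mem_union, Finset.mem_image, Finset.mem_filter, Finset.mem_univ, true_and,
      Prod.mk.injEq] at hy
    rcases hy with ⟨z, hz, rfl, _⟩ | ⟨k, hk, rfl, _⟩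
    · exact nbZ_step n r x hx.1 hz
    · exact box_mono n r hx.1

end IPC
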