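import Pool.Agent.Lib.MP_25e40f_pr.Defs2
import Pool.Agent.Lib.MP_25e40f_pr.A.Att
import Pool.Agent.Lib.MP_25e40f_pr.A.Har
import Pool.Agent.Lib.MP_25e40f_pr.T.Pos
import Pool.Agent.Lib.MP_25e40f_pr.T.Iso
import Pool.Agent.Lib.MP_25e40f_pr.T.Hs

/-!
# INTERFACE T (leader helper16), proved: edge sets and two point functions of a graph
-/

set_option autoImplicit false

noncomputable section

open Finset Filter

namespace IPC

namespace PG

variable {V : Type} [DecidableEq V] (G : PG V)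

theorem mem_ein (D : Finset V) (a b : V) : s(a, b) ∈ G.ein D ↔ a ∈ D ∧ b ∈ D ∧ b ∈ G.nb a := by
  rw [T.mem_ein G]
  tauto

theorem mem_touch (S : Finset V) (a b : V) :
    s(a, b) ∈ G.touch S ↔ (a ∈ S ∨ b ∈ S) ∧ b ∈ G.nb a := by
  rw [T.mem_touch G]
  tauto

theorem ein_mono {D D' : Finset V} (h : D ⊆ D') : G.ein D ⊆ G.ein D' := by
  exact T.ein_mono G h

theorem ein_inter_touch {D S : Finset V} (hS : S ⊆ D) (h : ∀ x ∈ S, G.nb x ⊆ D) :
    G.ein D ∩ G.touch S = G.touch S := by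
  exact Finset.inter_eq_right.2 (T.touch_subset_ein G hS h)

theorem off_ein (D S : Finset V) : off (G.ein D) (S : Set V) = G.ein (D \ S) := by
  exact T.off_ein G D S

theorem Lam_mono {r s : ℕ} (h : r ≤ s) : G.Lam r ⊆ G.Lam s := by
  exact T.Lam_mono G h

theorem exists_Lam (D : Finset V) : ∃ r, D ⊆ G.Lam r := by
  exact T.exists_Lam G D

theorem tauD_mono {p : ℝ} (hp0 : 0 ≤ p) (hp1 : p ≤ 1) {D D' : Finset V} (h : D ⊆ D') (x y : V) :
    G.tauD p D x y ≤ G.tauD p D' x y := by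
  exact T.tauD_mono_D G hp0 hp1 h x y

theorem tauD_le_tau {p : ℝ} (hp0 : 0 ≤ p) (hp1 : p ≤ 1) (D : Finset V) (x y : V) :
    G.tauD p D x y ≤ G.tau p x y := by
  exact T.tauD_le_tau G hp0 hp1 D x y

theorem tau_tendsto {p : ℝ} (hp0 : 0 ≤ p) (hp1 : p ≤ 1) (x y : V) :
    Tendsto (fun r => G.tauD p (G.Lam r) x y) atTop (nhds (G.tau p x y)) := by
  exact T.tau_tendsto G hp0 hp1 x y

/-- any exhausting sequence of finite sets gives the same limit -/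
theorem tau_tendsto_of {p : ℝ} (hp0 : 0 ≤ p) (hp1 : p ≤ 1) (x y : V) {κ : Type} (l : Filter κ)
    (D : κ → Finset V) (hD : ∀ r, ∀ᶠ k in l, G.Lam r ⊆ D k) :
    Tendsto (fun k => G.tauD p (D k) x y) l (nhds (G.tau p x y)) := by
  rw [tendsto_order]
  refine ⟨fun a ha => ?_, fun a ha => ?_⟩
  · have h1 := T.tau_tendsto G hp0 hp1 x y
    obtain ⟨r, hr⟩ := ((tendsto_order.1 h1).1 a ha).exists
    filter_upwards [hD r] with k hk
    exact lt_of_lt_of_le hr (T.tauD_mono_D G hp0 hp1 hk x y)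
  · exact Filter.Eventually.of_forall fun k =>
      lt_of_le_of_lt (T.tauD_le_tau G hp0 hp1 (D k) x y) ha

theorem tau_nonneg {p : ℝ} (hp0 : 0 ≤ p) (hp1 : p ≤ 1) (x y : V) : 0 ≤ G.tau p x y := by
  exact T.tau_nonneg G hp0 hp1 x y

theorem tau_le_one {p : ℝ} (hp0 : 0 ≤ p) (hp1 : p ≤ 1) (x y : V) : G.tau p x y ≤ 1 := by
  exact T.tau_le_one G hp0 hp1 x y

theorem tau_self {p : ℝ} (x : V) : G.tau p x x = 1 := by
  exact T.tau_self G p x

theorem tau_symm {p : ℝ} (x y : V) : G.tau p x y = G.tau p y x := by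
  exact T.tau_symm G p x y

theorem tau_mul_le {p : ℝ} (hp0 : 0 ≤ p) (hp1 : p ≤ 1) (x y z : V) :
    G.tau p x y * G.tau p y z ≤ G.tau p x z := by
  exact T.tau_trans G hp0 hp1 x y z

theorem tau_nb {p : ℝ} (hp0 : 0 ≤ p) (hp1 : p ≤ 1) {x y : V} (h : y ∈ G.nb x) :
    p ≤ G.tau p x y := by
  exact T.tau_nb G hp0 hp1 h

theorem tau_le_sum {p : ℝ} (hp0 : 0 ≤ p) (hp : p ≤ 1 / 2) {x y : V} (h : x ≠ y) :
    G.tau p x y ≤ ∑ z ∈ G.nb x, p * G.tau p z y := by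
  have h1 := T.tau_step G hp0 hp x y
  rw [if_neg h, zero_add] at h1
  exact h1

theorem tau_mono_p {p q : ℝ} (hp0 : 0 ≤ p) (hpq : p ≤ q) (hq : q ≤ 1) (x y : V) :
    G.tau p x y ≤ G.tau q x y := by
  exact T.tau_mono_p G hp0 hpq hq x y

/-- left continuity in `p` -/
theorem tau_left {p : ℝ} (hp0 : 0 < p) (hp1 : p ≤ 1) (x y : V) :
    Tendsto (fun q => G.tau q x y) (nhdsWithin p (Set.Iio p)) (nhds (G.tau p x y)) := by
  exact T.tau_leftcont G hp0 hp1 x y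

/-- crossing inequality -/
theorem crossing {p : ℝ} (hp0 : 0 ≤ p) (hp : p ≤ 1 / 2) {D S : Finset V} (hS : S ⊆ D) {x v : V}
    (hx : x ∈ S) (hv : v ∉ S) : G.tauD p D x v ≤
      ∑ y ∈ S, ∑ z ∈ G.nb y \ S, G.tauD p S x y * p * G.tauD p D z v := by
  refine (T.crossing G hp0 hp hS hx hv).trans ?_
  refine Finset.sum_le_sum fun y _ => ?_
  refine Finset.sum_le_sum_of_subset_of_nonneg Finset.inter_subset_left fun z _ _ => ?_
  exact mul_nonneg (mul_nonneg (T.tauD_nonneg G hp0 (by linarith) S x y) hp0)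
    (T.tauD_nonneg G hp0 (by linarith) D z v)

/-- crossing of a set of vertices `Y` which separates `x` from `v` in `D` -/
theorem crossing_set {p : ℝ} (hp0 : 0 ≤ p) (hp : p ≤ 1 / 2) {D Y : Finset V} {x v : V}
    (hY : ∀ ω, ω ⊆ G.ein D → Conn ω x v → ∃ y ∈ Y, Conn ω x y ∧ ¬ Conn (off ω (Y : Set V)) x v) :
    G.tauD p D x v ≤ ∑ y ∈ Y, G.tauD p D x y * G.tauD p D y v := by
  have hp1 : p ≤ 1 := by linarith
  have h1 : G.tauD p D x v ≤ Pr p (G.ein D) (fun ω => ∃ y ∈ Y,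
      Occ [fun ω' => Conn ω' x y, fun ω' => Conn ω' y v] ω) := by
    refine Pr_mono hp0 hp1 _ fun ω hω h => ?_
    obtain ⟨-, -, -, h3⟩ := hY ω hω h
    obtain ⟨ω', hs, ht⟩ := exists_trail h
    have h4 : ∃ y ∈ Y, y ∈ VV ω' := by
      by_contra hcon
      apply h3
      refine Conn_mono ?_ (Trail_conn ht)
      intro e he
      have he' : e ∈ ω' := he
      induction e using Sym2.ind with
      | _ a b =>
        rw [T.mem_off]
        refine ⟨hs he', fun ha => hcon ⟨a, Finset.mem_coe.1 ha, ?_⟩, fun hb => hcon ⟨b, Finset.mem_coe.1 hb, ?_⟩⟩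
        · exact (mem_VV _ _).2 ⟨b, he'⟩
        · refine (mem_VV _ _).2 ⟨a, ?_⟩
          rw [Sym2.eq_swap]
          exact he'
    obtain ⟨y, hyY, hyV⟩ := h4
    obtain ⟨ω₁, ω₂, hd, hu, ht1, ht2⟩ := Trail_split ht (Or.inr (Or.inr hyV))
    refine ⟨y, hyY, (Occ_two _ _ _ (Conn_inc y v)).2 ⟨ω₁, ω₂, ?_, ?_, hd, Trail_conn ht1, Trail_conn ht2⟩⟩
    · exact (hu ▸ Finset.subset_union_left).trans hs
    · exact (hu ▸ Finset.subset_union_right).trans hs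
  refine h1.trans ((Pr_exists_le hp0 hp1 _ Y _).trans (Finset.sum_le_sum fun y _ => ?_))
  refine (bk_list hp0 hp _ _ ?_).trans (le_of_eq ?_)
  · intro A hA
    simp only [List.mem_cons, List.not_mem_nil, or_false] at hA
    rcases hA with rfl | rfl
    · exact Conn_inc x y
    · exact Conn_inc y v
  · simp only [List.map_cons, List.map_nil, List.prod_cons, List.prod_nil, mul_one]
    rfl

theorem noPerc_anti {p q : ℝ} (hp0 : 0 ≤ p) (hpq : p ≤ q) (hq : q ≤ 1) (h : G.NoPerc q) :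
    G.NoPerc p := by
  exact T.noPerc_mono G hp0 hpq hq h

theorem noPerc_of_lt_pc {p : ℝ} (hp0 : 0 ≤ p) (h : p < G.pc) : G.NoPerc p := by
  exact T.noPerc_of_lt G hp0 h

theorem pc_le_one : 0 ≤ G.pc ∧ G.pc ≤ 1 := by
  exact ⟨T.pc_nonneg G, T.pc_le_one G⟩

theorem not_noPerc_of_gt {p : ℝ} (hp1 : p ≤ 1) (h : G.pc < p) : ¬ G.NoPerc p := by
  intro hN
  refine absurd (le_csSup (s := {q : ℝ | 0 ≤ q ∧ q ≤ 1 ∧ G.NoPerc q}) ⟨1, fun q hq => hq.2.1⟩
    (⟨(T.pc_nonneg G).trans h.le, hp1, hN⟩ : p ∈ {q : ℝ | 0 ≤ q ∧ q ≤ 1 ∧ G.NoPerc q})) (not_le.2 h)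

/-- connection to far away: the probability that `x` is connected to a vertex outside of a finite set -/
theorem arm_far {p : ℝ} (hp0 : 0 ≤ p) (hp1 : p ≤ 1) (x : V) (r : ℕ) (D : Finset V) :
    Pr p (G.ein D) (fun ω => ∃ y, y ∉ G.Lam r ∧ Conn ω x y) ≤ G.arm p x r + ind (x ∉ G.Lam r) := by
  by_cases hx : x ∈ G.Lam r
  · have h1 := T.arm_ge G hp0 hp1 D hx (T := {y | y ∉ G.Lam r}) (fun v hv => hv)
    have h2 : ind (x ∉ G.Lam r) = 0 := ind_not (not_not.2 hx)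
    rw [h2, add_zero]
    exact h1
  · have h2 : ind (x ∉ G.Lam r) = 1 := ind_of hx
    rw [h2]
    have h3 := Pr_le_one hp0 hp1 (G.ein D) (fun ω => ∃ y, y ∉ G.Lam r ∧ Conn ω x y)
    have h4 := T.arm_nonneg G hp0 hp1 x r
    linarith

/-- positivity of the kernel -/
theorem tauD_pos {p : ℝ} (hp0 : 0 ≤ p) (hp1 : p ≤ 1) (D : Finset V) (Δ : ℕ) (hΔ : G.DegLe Δ)
    (f : V → ℂ) : (1 - p) ^ Δ * ∑ x ∈ D, ‖f x‖ ^ 2 ≤
      (∑ x ∈ D, ∑ y ∈ D, (starRingEnd ℂ) (f x) * f y * (G.tauD p D x y : ℂ)).re := by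
  refine (T.tauD_pos G hp0 hp1 D (fun x _ => hΔ x) f).trans (le_of_eq ?_)
  rw [Complex.re_sum]
  refine Finset.sum_congr rfl fun x _ => ?_
  rw [Complex.re_sum]
  refine Finset.sum_congr rfl fun y _ => ?_
  rw [Complex.re_mul_ofReal]
  rfl

theorem tau_aut {p : ℝ} (hp0 : 0 ≤ p) (hp1 : p ≤ 1) {φ : V ≃ V} (hφ : G.Aut φ) (x y : V) :
    G.tau p (φ x) (φ y) = G.tau p x y := by
  refine T.tau_iso G G hp0 hp1 φ (fun a b => ?_) x y
  rw [hφ a, Finset.mem_image]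
  constructor
  · intro h
    exact ⟨b, h, rfl⟩
  · rintro ⟨c, hc, he⟩
    rw [← φ.injective he]
    exact hc

/-- an injective map of graphs increases the two point function -/
theorem tau_embed {p : ℝ} (hp0 : 0 ≤ p) (hp1 : p ≤ 1) {V' : Type} [DecidableEq V'] (G' : PG V')
    (φ : V → V') (hφ : Function.Injective φ) (h : ∀ x, (G.nb x).image φ ⊆ G'.nb (φ x)) (x y : V) :
    G.tau p x y ≤ G'.tau p (φ x) (φ y) := by
  exact T.tau_embed G G' hp0 hp1 hφ (fun a b hb => h a (Finset.mem_image_of_mem φ hb)) x y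

end PG

end IPC
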