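import Mathlib

/-!
# MP_25e40f_pr: the definitions used in the statement of the result

Invasion percolation on `ℤᵈ` and bond percolation at level `p` (an edge is open if its weight is at most
`p`), both defined from the same independent uniform weights.
-/

set_option autoImplicit false

noncomputable section

open MeasureTheory

namespace InvPerc

/-- the uniform law on `(0, 1)` -/
def unif : Measure ℝ := volume.restrict (Set.Ioo 0 1)

instance : IsProbabilityMeasure unif :=
  ⟨by unfold unif; rw [Measure.restrict_apply_univ, Real.volume_Ioo]; norm_num⟩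

/-- the law of the weights: independent, uniform on `(0, 1)`, one weight for every unordered pair of
vertices of `ℤᵈ` (only the weights of the edges, i.e. of the pairs of nearest neighbours, are used) -/
def weights (d : ℕ) : Measure (Sym2 (Fin d → ℤ) → ℝ) := Measure.infinitePi fun _ => unif

variable {d : ℕ}

/-- nearest neighbours in `ℤᵈ` -/
def Nbr (x y : Fin d → ℤ) : Prop := ∑ i, |x i - y i| = 1

/-- `Invaded U t A`: the set `A` is the set `V_t` of the vertices invaded up to time `t`. It starts with
`{0}`; at each step the edge `(x, y)` of smallest weight with `x` in the set and `y` outside is taken and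
`y` is added -/
inductive Invaded (U : Sym2 (Fin d → ℤ) → ℝ) : ℕ → Finset (Fin d → ℤ) → Prop
  | zero : Invaded U 0 {0}
  | step (t : ℕ) (A : Finset (Fin d → ℤ)) (x y : Fin d → ℤ) (hA : Invaded U t A) (hx : x ∈ A)
      (hy : y ∉ A) (hxy : Nbr x y)
      (hm : ∀ x' y', x' ∈ A → y' ∉ A → Nbr x' y' → U s(x, y) ≤ U s(x', y')) :
      Invaded U (t + 1) (insert y A)

/-- the vertex set of the invasion percolation cluster -/
def ipc (U : Sym2 (Fin d → ℤ) → ℝ) : Set (Fin d → ℤ) := {v | ∃ t A, Invaded U t A ∧ v ∈ A}

/-- the vertex set of the open cluster of `x`, the open edges being those of weight at most `p` -/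
def cluster (p : ℝ) (U : Sym2 (Fin d → ℤ) → ℝ) (x : Fin d → ℤ) : Set (Fin d → ℤ) :=
  {y | Relation.ReflTransGen (fun a b => Nbr a b ∧ U s(a, b) ≤ p) x y}

/-- the critical value of bond percolation on `ℤᵈ` -/
def pc (d : ℕ) : ℝ :=
  sSup {p : ℝ | 0 ≤ p ∧ p ≤ 1 ∧ weights d {U | (cluster p U 0).Infinite} = 0}

end InvPerc
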